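import Pool.Agent.H974R2.BK

/-!
# The van den Berg-Fiebig inequality

Disjoint occurrence for intersections of an increasing and a decreasing event.
-/

set_option autoImplicit false

namespace H985V

open H974 Finset

variable {E : Type*} [DecidableEq E]

theorem vbf {p : E → ℝ} (hp : Ok p) {S : Finset E} {I1 I2 J1 J2 : Finset E → Prop}
    (hI1 : IncrE S I1) (hI2 : IncrE S I2) (hJ1 : IncrE S J1) (hJ2 : IncrE S J2) :
    Pr p S (fun F => DisjOcc I1 I2 F ∧ DisjOcc J1 J2 (S \ F)) ≤
      Pr p S (fun F => I1 F ∧ J1 (S \ F)) * Pr p S (fun F => I2 F ∧ J2 (S \ F)) := by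
  induction S using Finset.induction_on generalizing I1 I2 J1 J2 with
  | empty =>
    unfold Pr
    rw [Ex_empty, Ex_empty, Ex_empty, ← ind_and]
    apply ind_mono
    rintro ⟨⟨K, L, h1, h2, -, h4, h5⟩, ⟨K', L', h1', h2', -, h4', h5'⟩⟩
    rw [Finset.subset_empty.mp h1] at h4
    rw [Finset.subset_empty.mp h2] at h5
    rw [Finset.sdiff_self, Finset.subset_empty] at h1' h2'
    subst h1'; subst h2'
    show (I1 ∅ ∧ J1 (∅ \ ∅)) ∧ (I2 ∅ ∧ J2 (∅ \ ∅))
    rw [Finset.sdiff_self]
    exact ⟨⟨h4, h4'⟩, ⟨h5, h5'⟩⟩
  | insert a S ha ih =>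
    have low : ∀ {A : Finset E → Prop}, IncrE (insert a S) A → IncrE S A :=
      fun h F G h1 h2 => h F G h1 (h2.trans (Finset.subset_insert _ _))
    have up : ∀ {A : Finset E → Prop}, IncrE (insert a S) A → IncrE S (fun F => A (insert a F)) :=
      fun h F G h1 h2 =>
        h _ _ (Finset.insert_subset_insert _ h1) (Finset.insert_subset_insert _ h2)
    have le : ∀ {A : Finset E → Prop}, IncrE (insert a S) A →
        ∀ K, K ⊆ S → A K → A (insert a K) := fun hA K hK h =>
      hA K _ (Finset.subset_insert _ _) (Finset.insert_subset_insert _ hK) h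
    have e : ∀ (C : Finset E → Prop), Pr p (insert a S) C
        = p a * Pr p S (fun F => C (insert a F)) + (1 - p a) * Pr p S C := by
      intro C
      unfold Pr
      rw [Ex_insert p ha]
    have s1 : ∀ F, F ⊆ S → insert a S \ insert a F = S \ F := by
      intro F hF
      ext x
      simp only [Finset.mem_sdiff, Finset.mem_insert, not_or]
      constructor
      · rintro ⟨h | h, h2, h3⟩
        · exact absurd h h2
        · exact ⟨h, h3⟩
      · rintro ⟨h, h2⟩
        exact ⟨Or.inr h, fun hx => ha (hx ▸ h), h2⟩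
    have s2 : ∀ F, F ⊆ S → insert a S \ F = insert a (S \ F) := by
      intro F hF
      rw [Finset.insert_sdiff_of_notMem _ (fun h => ha (hF h))]
    rw [e, e, e]
    set q := p a with hq
    obtain ⟨q0, q1⟩ := hp a
    rw [← hq] at q0 q1
    -- the four events
    have hx : ∀ {I J : Finset E → Prop}, Pr p S (fun F => I (insert a F) ∧
        J (insert a S \ insert a F)) = Pr p S (fun F => I (insert a F) ∧ J (S \ F)) := by
      intro I J
      exact Pr_congr fun F hF => by rw [s1 F hF]
    have hy : ∀ {I J : Finset E → Prop}, Pr p S (fun F => I F ∧ J (insert a S \ F)) =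
        Pr p S (fun F => I F ∧ J (insert a (S \ F))) := by
      intro I J
      exact Pr_congr fun F hF => by rw [s2 F hF]
    have hU : Pr p S (fun F => DisjOcc I1 I2 (insert a F) ∧
        DisjOcc J1 J2 (insert a S \ insert a F)) = Pr p S (fun F =>
        (DisjOcc (fun G => I1 (insert a G)) I2 F ∨ DisjOcc I1 (fun G => I2 (insert a G)) F) ∧
          DisjOcc J1 J2 (S \ F)) :=
      Pr_congr fun F hF => by rw [s1 F hF, disjOcc_insert ha hI1 hI2 hF]
    have hV : Pr p S (fun F => DisjOcc I1 I2 F ∧ DisjOcc J1 J2 (insert a S \ F)) =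
        Pr p S (fun F => DisjOcc I1 I2 F ∧
          (DisjOcc (fun G => J1 (insert a G)) J2 (S \ F) ∨
            DisjOcc J1 (fun G => J2 (insert a G)) (S \ F))) :=
      Pr_congr fun F hF => by
        rw [s2 F hF, disjOcc_insert ha hJ1 hJ2 Finset.sdiff_subset]
    rw [hU, hV, hx (I := I1) (J := J1), hx (I := I2) (J := J2), hy (I := I1) (J := J1),
      hy (I := I2) (J := J2)]
    set U : Finset E → Prop := fun F =>
        (DisjOcc (fun G => I1 (insert a G)) I2 F ∨ DisjOcc I1 (fun G => I2 (insert a G)) F) ∧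
          DisjOcc J1 J2 (S \ F) with hUd
    set V : Finset E → Prop := fun F => DisjOcc I1 I2 F ∧
          (DisjOcc (fun G => J1 (insert a G)) J2 (S \ F) ∨
            DisjOcc J1 (fun G => J2 (insert a G)) (S \ F)) with hVd
    have c1 := ih (up hI1) (up hI2) (low hJ1) (low hJ2)
    have c2 := ih (low hI1) (low hI2) (up hJ1) (up hJ2)
    have c3 := ih (up hI1) (low hI2) (low hJ1) (up hJ2)
    have c4 := ih (low hI1) (up hI2) (up hJ1) (low hJ2)
    have d1 : Pr p S U ≤ Pr p S (fun F => DisjOcc (fun G => I1 (insert a G))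
        (fun G => I2 (insert a G)) F ∧ DisjOcc J1 J2 (S \ F)) := by
      apply Pr_mono hp
      rintro F hF ⟨h | h, h'⟩
      · exact ⟨h.mono (fun _ _ h => h) (fun K hK h => le hI2 K (hK.trans hF) h), h'⟩
      · exact ⟨h.mono (fun K hK h => le hI1 K (hK.trans hF) h) (fun _ _ h => h), h'⟩
    have d2 : Pr p S V ≤ Pr p S (fun F => DisjOcc I1 I2 F ∧
        DisjOcc (fun G => J1 (insert a G)) (fun G => J2 (insert a G)) (S \ F)) := by
      apply Pr_mono hp
      rintro F hF ⟨h', h | h⟩
      · exact ⟨h', h.mono (fun _ _ h => h)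
          (fun K hK h => le hJ2 K (hK.trans Finset.sdiff_subset) h)⟩
      · exact ⟨h', h.mono (fun K hK h => le hJ1 K (hK.trans Finset.sdiff_subset) h)
          (fun _ _ h => h)⟩
    have d3 : Pr p S U + Pr p S V ≤
        Pr p S (fun F => DisjOcc (fun G => I1 (insert a G)) I2 F ∧
          DisjOcc J1 (fun G => J2 (insert a G)) (S \ F)) +
        Pr p S (fun F => DisjOcc I1 (fun G => I2 (insert a G)) F ∧
          DisjOcc (fun G => J1 (insert a G)) J2 (S \ F)) := by
      unfold Pr
      rw [← Ex_add, ← Ex_add]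
      apply Ex_mono hp
      intro F hF
      have i0 : DisjOcc I1 I2 F → DisjOcc (fun G => I1 (insert a G)) I2 F := fun h =>
        h.mono (fun K hK h => le hI1 K (hK.trans hF) h) (fun _ _ h => h)
      have i0' : DisjOcc I1 I2 F → DisjOcc I1 (fun G => I2 (insert a G)) F := fun h =>
        h.mono (fun _ _ h => h) (fun K hK h => le hI2 K (hK.trans hF) h)
      have j0 : DisjOcc J1 J2 (S \ F) → DisjOcc (fun G => J1 (insert a G)) J2 (S \ F) := fun h =>
        h.mono (fun K hK h => le hJ1 K (hK.trans Finset.sdiff_subset) h) (fun _ _ h => h)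
      have j0' : DisjOcc J1 J2 (S \ F) → DisjOcc J1 (fun G => J2 (insert a G)) (S \ F) := fun h =>
        h.mono (fun _ _ h => h) (fun K hK h => le hJ2 K (hK.trans Finset.sdiff_subset) h)
      by_cases hu : U F
      · by_cases hv : V F
        · have m1 : DisjOcc (fun G => I1 (insert a G)) I2 F ∧
              DisjOcc J1 (fun G => J2 (insert a G)) (S \ F) := ⟨i0 hv.1, j0' hu.2⟩
          have m2 : DisjOcc I1 (fun G => I2 (insert a G)) F ∧
              DisjOcc (fun G => J1 (insert a G)) J2 (S \ F) := ⟨i0' hv.1, j0 hu.2⟩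
          rw [ind_of hu, ind_of hv, ind_of m1, ind_of m2]
        · rw [ind_of hu, ind_not_of hv]
          rcases hu with ⟨h | h, h'⟩
          · rw [ind_of (show DisjOcc (fun G => I1 (insert a G)) I2 F ∧
              DisjOcc J1 (fun G => J2 (insert a G)) (S \ F) from ⟨h, j0' h'⟩)]
            have := ind_nonneg (DisjOcc I1 (fun G => I2 (insert a G)) F ∧
              DisjOcc (fun G => J1 (insert a G)) J2 (S \ F))
            linarith
          · rw [ind_of (show DisjOcc I1 (fun G => I2 (insert a G)) F ∧
              DisjOcc (fun G => J1 (insert a G)) J2 (S \ F) from ⟨h, j0 h'⟩)]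
            have := ind_nonneg (DisjOcc (fun G => I1 (insert a G)) I2 F ∧
              DisjOcc J1 (fun G => J2 (insert a G)) (S \ F))
            linarith
      · by_cases hv : V F
        · rw [ind_not_of hu, ind_of hv]
          rcases hv with ⟨h', h | h⟩
          · rw [ind_of (show DisjOcc I1 (fun G => I2 (insert a G)) F ∧
              DisjOcc (fun G => J1 (insert a G)) J2 (S \ F) from ⟨i0' h', h⟩)]
            have := ind_nonneg (DisjOcc (fun G => I1 (insert a G)) I2 F ∧
              DisjOcc J1 (fun G => J2 (insert a G)) (S \ F))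
            linarith
          · rw [ind_of (show DisjOcc (fun G => I1 (insert a G)) I2 F ∧
              DisjOcc J1 (fun G => J2 (insert a G)) (S \ F) from ⟨i0 h', h⟩)]
            have := ind_nonneg (DisjOcc I1 (fun G => I2 (insert a G)) F ∧
              DisjOcc (fun G => J1 (insert a G)) J2 (S \ F))
            linarith
        · rw [ind_not_of hu, ind_not_of hv]
          have k1 := ind_nonneg (DisjOcc I1 (fun G => I2 (insert a G)) F ∧
              DisjOcc (fun G => J1 (insert a G)) J2 (S \ F))
          have k2 := ind_nonneg (DisjOcc (fun G => I1 (insert a G)) I2 F ∧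
              DisjOcc J1 (fun G => J2 (insert a G)) (S \ F))
          linarith
    have d1' := d1.trans c1
    have d2' := d2.trans c2
    have d3' := d3.trans (add_le_add c3 c4)
    clear_value U V
    generalize Pr p S U = u at *
    generalize Pr p S V = v at *
    generalize Pr p S (fun F => I1 (insert a F) ∧ J1 (S \ F)) = x1 at *
    generalize Pr p S (fun F => I2 (insert a F) ∧ J2 (S \ F)) = x2 at *
    generalize Pr p S (fun F => I1 F ∧ J1 (insert a (S \ F))) = y1 at *
    generalize Pr p S (fun F => I2 F ∧ J2 (insert a (S \ F))) = y2 at *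
    have q1' : 0 ≤ 1 - q := by linarith
    have k1 : q * q * u ≤ q * q * (x1 * x2) := mul_le_mul_of_nonneg_left d1' (by positivity)
    have k2 : (1 - q) * (1 - q) * v ≤ (1 - q) * (1 - q) * (y1 * y2) :=
      mul_le_mul_of_nonneg_left d2' (by positivity)
    have k3 : q * (1 - q) * (u + v) ≤ q * (1 - q) * (x1 * y2 + y1 * x2) :=
      mul_le_mul_of_nonneg_left d3' (by positivity)
    nlinarith [k1, k2, k3]

end H985V
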